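import Mathlib
import Pool.Agent.H13.Fill

open Set Pool.Agent.H13.Fill

namespace Pool.Agent.Results.MP_f351c6_gt.No

universe u v

/-- The orbit `G_f = {g f}` with `(g f)(x) = f (x g)`. -/
def orbit {G : Type u} {X : Type v} [CommGroup G] (f : G → X) : Set (G → X) :=
  range fun g x => f (x * g)

def Korovin {G : Type u} {X : Type v} [CommGroup G] (f : G → X) : Prop :=
  ∀ M : Set G, M.Countable → (fun (d : G → X) (i : M) => d i) '' orbit f = univ

theorem result (X : Type v) [TopologicalSpace X] [Nontrivial X] (G : Type u) [CommGroup G]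
    (hG : Cardinal.continuum ≤ Cardinal.mk G) (f : G → X) (hf : Korovin f) :
    ¬ (T2Space (orbit f) ∧ ParacompactSpace (orbit f)) := by
  rintro ⟨h2, hp⟩
  have hF : F (orbit f) := F.of_restrict hf
  have key : ∀ a b : X, a ⤳ b := by
    intro a b
    obtain ⟨_, ⟨g, rfl⟩, h⟩ := spec hF fun _ => a
    obtain ⟨_, ⟨k, rfl⟩, e⟩ := hF {1} (countable_singleton _) fun _ => b
    have := specializes_pi.1 h (k * g⁻¹)
    have e : f (1 * k) = b := e 1 rfl
    simpa [← e] using this
  obtain ⟨a, b, hab⟩ := exists_pair_ne X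
  obtain ⟨d, hd, e⟩ := hF {1} (countable_singleton _) fun _ => a
  obtain ⟨d', hd', e'⟩ := hF {1} (countable_singleton _) fun _ => b
  have : (⟨d, hd⟩ : orbit f) ⤳ ⟨d', hd'⟩ :=
    Topology.IsInducing.subtypeVal.specializes_iff.1 (specializes_pi.2 fun _ => key _ _)
  have : d = d' := congrArg Subtype.val this.eq
  exact hab ((e 1 rfl).symm.trans (this ▸ e' 1 rfl))

end Pool.Agent.Results.MP_f351c6_gt.No
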